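import Mathlib
import Pool.Agent.Helper17.RS.Sheet

/-! # Truncated series modulo `(13, X^20)` on lists, for the rows SER and EXP -/

set_option autoImplicit false

namespace Pool.Agent.Helper4.RS

open Polynomial Pool.Helper17.RS

/-- the polynomial of a list of coefficients -/
noncomputable def tp : List ℕ → (ZMod 13)[X]
  | [] => 0
  | x :: xs => C (x : ZMod 13) + X * tp xs

def addL : List ℕ → List ℕ → List ℕ
  | [], ys => ys
  | x :: xs, [] => x :: xs
  | x :: xs, y :: ys => ((x + y) % 13) :: addL xs ys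

def scaleL (c : ℕ) : List ℕ → List ℕ
  | [] => []
  | x :: xs => ((c * x) % 13) :: scaleL c xs

def mulL : List ℕ → List ℕ → List ℕ
  | [], _ => []
  | x :: xs, ys => addL (scaleL x ys) (0 :: mulL xs ys)

theorem tp_add : ∀ l m : List ℕ, tp (addL l m) = tp l + tp m
  | [], ys => by simp [addL, tp]
  | x :: xs, [] => by simp [addL, tp]
  | x :: xs, y :: ys => by
    simp only [addL, tp, tp_add xs ys, ZMod.natCast_mod, Nat.cast_add, map_add]
    ring

theorem tp_scale (c : ℕ) : ∀ l : List ℕ, tp (scaleL c l) = C (c : ZMod 13) * tp l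
  | [] => by simp [scaleL, tp]
  | x :: xs => by
    simp only [scaleL, tp, tp_scale c xs, ZMod.natCast_mod, Nat.cast_mul, map_mul]
    ring

theorem tp_mul : ∀ l m : List ℕ, tp (mulL l m) = tp l * tp m
  | [], ys => by simp [mulL, tp]
  | x :: xs, ys => by
    simp only [mulL, tp, tp_add, tp_scale, tp_mul xs ys, Nat.cast_zero, map_zero]
    ring

theorem tp_take : ∀ (n : ℕ) (l : List ℕ), (X ^ n : (ZMod 13)[X]) ∣ tp l - tp (l.take n)
  | 0, l => by simp
  | n + 1, [] => by simp [tp]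
  | n + 1, x :: xs => by
    have h := tp_take n xs
    simp only [List.take_succ_cons, tp]
    obtain ⟨q, hq⟩ := h
    refine ⟨q, ?_⟩
    have : C (x : ZMod 13) + X * tp xs - (C (x : ZMod 13) + X * tp (xs.take n)) =
        X * (tp xs - tp (xs.take n)) := by ring
    rw [this, hq]
    ring

theorem tp_coeff : ∀ (l : List ℕ) (k : ℕ), (tp l).coeff k = ((l.getD k 0 : ℕ) : ZMod 13)
  | [], k => by simp [tp]
  | x :: xs, 0 => by simp [tp]
  | x :: xs, k + 1 => by
    simp only [tp, coeff_add, coeff_X_mul, tp_coeff xs k, coeff_C_succ, zero_add,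
      List.getD_cons_succ]

/-- truncated series as lists -/
structure T where
  l : List ℕ
deriving DecidableEq

instance : Add T := ⟨fun a b => ⟨addL a.l b.l⟩⟩
instance : Sub T := ⟨fun a b => ⟨addL a.l (scaleL 12 b.l)⟩⟩
instance : Neg T := ⟨fun b => ⟨scaleL 12 b.l⟩⟩
instance : Mul T := ⟨fun a b => ⟨(mulL a.l b.l).take 20⟩⟩

def powT (a : T) : ℕ → T
  | 0 => ⟨[1]⟩
  | n + 1 => powT a n * a

instance : Pow T ℕ := ⟨powT⟩
instance (n : ℕ) : OfNat T n := ⟨⟨[n % 13]⟩⟩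

/-- `P` is represented by `l` modulo `(13, X^20)` -/
def Rep (P : ℤ[X]) (t : T) : Prop :=
  (X ^ 20 : (ZMod 13)[X]) ∣ P.map (Int.castRingHom (ZMod 13)) - tp t.l

theorem rep_add {P Q : ℤ[X]} {s t : T} (h : Rep P s) (k : Rep Q t) : Rep (P + Q) (s + t) := by
  unfold Rep at *
  change _ ∣ _ - tp (addL s.l t.l)
  rw [tp_add, Polynomial.map_add]
  have := dvd_add h k
  refine this.trans (dvd_of_eq (by ring))

theorem c12 : (C ((12 : ℕ) : ZMod 13) : (ZMod 13)[X]) = -1 := by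
  have : ((12 : ℕ) : ZMod 13) = -1 := by decide
  rw [this]; simp

theorem rep_neg {P : ℤ[X]} {s : T} (h : Rep P s) : Rep (-P) (-s) := by
  unfold Rep at *
  change _ ∣ _ - tp (scaleL 12 s.l)
  rw [tp_scale, c12, Polynomial.map_neg]
  have := (dvd_neg (a := (X ^ 20 : (ZMod 13)[X]))).2 h
  refine this.trans (dvd_of_eq (by ring))

theorem rep_sub {P Q : ℤ[X]} {s t : T} (h : Rep P s) (k : Rep Q t) : Rep (P - Q) (s - t) := by
  have h2 := rep_add h (rep_neg k)
  rw [← sub_eq_add_neg] at h2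
  exact h2

theorem rep_mul {P Q : ℤ[X]} {s t : T} (h : Rep P s) (k : Rep Q t) : Rep (P * Q) (s * t) := by
  unfold Rep at *
  change _ ∣ _ - tp ((mulL s.l t.l).take 20)
  have h3 := tp_take 20 (mulL s.l t.l)
  rw [tp_mul] at h3
  rw [Polynomial.map_mul]
  have h4 := dvd_add (dvd_add (h.mul_right (Q.map (Int.castRingHom (ZMod 13))))
    (k.mul_left (tp s.l))) h3
  refine h4.trans (dvd_of_eq (by ring))

theorem rep_one : Rep 1 ⟨[1]⟩ := by
  unfold Rep
  simp [tp]

theorem rep_pow {P : ℤ[X]} {s : T} (h : Rep P s) : ∀ n : ℕ, Rep (P ^ n) (s ^ n)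
  | 0 => by rw [pow_zero]; exact rep_one
  | n + 1 => by rw [pow_succ]; exact rep_mul (rep_pow h n) h

theorem rep_ofNat (n : ℕ) [n.AtLeastTwo] :
    Rep (OfNat.ofNat n : ℤ[X]) (OfNat.ofNat n : T) := by
  unfold Rep
  change _ ∣ _ - tp [n % 13]
  have h1 : (OfNat.ofNat n : ℤ[X]).map (Int.castRingHom (ZMod 13)) = C ((n : ℕ) : ZMod 13) := by
    rw [Polynomial.map_ofNat]
    exact (Nat.cast_ofNat (R := (ZMod 13)[X]) (n := n)).symm.trans (map_natCast C n).symm
  rw [h1]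
  simp [tp, ZMod.natCast_mod]

theorem rep_int (z : ℤ) (n : ℕ) (h : (13 : ℤ) ∣ z - n) : Rep ((z : ℤ) : ℤ[X]) ⟨[n]⟩ := by
  unfold Rep
  have h1 : ((z : ℤ) : ℤ[X]).map (Int.castRingHom (ZMod 13)) = C ((z : ℤ) : ZMod 13) := by
    rw [Polynomial.map_intCast]
    simp
  rw [h1]
  have h2 : ((z : ℤ) : ZMod 13) = ((n : ℕ) : ZMod 13) := by
    have := (ZMod.intCast_eq_intCast_iff_dvd_sub (n : ℤ) z 13).2 (by exact_mod_cast h)
    rw [← this]; simp
  rw [h2]
  simp [tp]

theorem rep_C (z : ℤ) (n : ℕ) (h : (13 : ℤ) ∣ z - n) : Rep (C z) ⟨[n]⟩ := by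
  have := rep_int z n h
  rwa [← Polynomial.C_eq_intCast] at this

theorem rep_X : Rep X ⟨[0, 1]⟩ := by
  unfold Rep
  simp [tp]

/-- coefficients -/
theorem rep_coeff {P : ℤ[X]} {t : T} (h : Rep P t) (k : ℕ) (hk : k < 20) :
    ((P.coeff k : ℤ) : ZMod 13) = ((t.l.getD k 0 : ℕ) : ZMod 13) := by
  unfold Rep at h
  have h1 := (Polynomial.X_pow_dvd_iff.1 h) k hk
  rw [coeff_sub, coeff_map, tp_coeff, sub_eq_zero] at h1
  simpa using h1

theorem rep_of_coeff {P : ℤ[X]} {t : T}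
    (h : ∀ k < 20, (13 : ℤ) ∣ P.coeff k - (t.l.getD k 0 : ℕ)) : Rep P t := by
  unfold Rep
  rw [Polynomial.X_pow_dvd_iff]
  intro k hk
  rw [coeff_sub, coeff_map, tp_coeff, sub_eq_zero]
  have h2 := (ZMod.intCast_eq_intCast_iff_dvd_sub ((t.l.getD k 0 : ℕ) : ℤ) (P.coeff k) 13).2
    (by exact_mod_cast h k hk)
  rw [Int.cast_natCast] at h2
  rw [h2]; simp

/-- the relation `Eq20` -/
theorem eq20_iff (P Q : ℤ[X]) : Eq20 P Q ↔ ∀ k < 20, (13 : ℤ) ∣ (P - Q).coeff k := by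
  constructor
  · rintro ⟨g, h, e⟩ k hk
    rw [e, coeff_add]
    have h1 : (X ^ 20 * h).coeff k = 0 := by
      rw [coeff_X_pow_mul', if_neg (by omega)]
    rw [h1, add_zero]
    have h2 : (13 : ℤ[X]) = C 13 := by simp
    rw [h2, coeff_C_mul]
    exact dvd_mul_right _ _
  · intro h
    set D := P - Q with hD
    have hm : (X ^ 20 : ℤ[X]).Monic := monic_X_pow 20
    have h1 := modByMonic_add_div D (X ^ 20 : ℤ[X])
    have h2 : (C 13 : ℤ[X]) ∣ D %ₘ (X ^ 20) := by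
      rw [C_dvd_iff_dvd_coeff]
      intro i
      by_cases hi : i < 20
      · have h3 := congrArg (fun p => p.coeff i) h1
        simp only [coeff_add] at h3
        rw [coeff_X_pow_mul', if_neg (by omega), add_zero] at h3
        rw [h3]; exact h i hi
      · have h3 : (D %ₘ (X ^ 20)).coeff i = 0 := by
          apply coeff_eq_zero_of_degree_lt
          have h4 := degree_modByMonic_lt D hm
          rw [degree_X_pow] at h4
          refine lt_of_lt_of_le h4 ?_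
          exact_mod_cast (not_lt.1 hi)
        rw [h3]; exact dvd_zero _
    obtain ⟨g, hg⟩ := h2
    refine ⟨g, D /ₘ (X ^ 20), ?_⟩
    have h5 : (C 13 : ℤ[X]) = 13 := by simp
    calc D = D %ₘ X ^ 20 + X ^ 20 * (D /ₘ X ^ 20) := h1.symm
      _ = 13 * g + X ^ 20 * (D /ₘ X ^ 20) := by rw [hg, h5]

theorem eq20_of_rep {P Q : ℤ[X]} {s t : T} (hP : Rep P s) (hQ : Rep Q t)
    (h : ∀ k < 20, s.l.getD k 0 % 13 = t.l.getD k 0 % 13) : Eq20 P Q := by
  rw [eq20_iff]
  intro k hk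
  rw [coeff_sub]
  have h1 := rep_coeff hP k hk
  have h2 := rep_coeff hQ k hk
  have h3 : ((P.coeff k : ℤ) : ZMod 13) = ((Q.coeff k : ℤ) : ZMod 13) := by
    rw [h1, h2, ← ZMod.natCast_mod, h k hk, ZMod.natCast_mod]
  have h4 := (ZMod.intCast_eq_intCast_iff_dvd_sub (Q.coeff k) (P.coeff k) 13).1 h3.symm
  exact_mod_cast h4

theorem rep_of_eq20 {P Q : ℤ[X]} {t : T} (h : Eq20 P Q) (hQ : Rep Q t) : Rep P t := by
  obtain ⟨g, r, e⟩ := h
  unfold Rep at *
  have h1 : P = Q + (13 * g + X ^ 20 * r) := by rw [← e]; ring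
  rw [h1]
  have h2 : ((13 * g + X ^ 20 * r : ℤ[X])).map (Int.castRingHom (ZMod 13)) =
      X ^ 20 * r.map (Int.castRingHom (ZMod 13)) := by
    rw [Polynomial.map_add, Polynomial.map_mul, Polynomial.map_mul, Polynomial.map_pow,
      Polynomial.map_X, Polynomial.map_ofNat]
    have : (13 : (ZMod 13)[X]) = 0 := by
      have h3 : (13 : (ZMod 13)[X]) = C (13 : ZMod 13) := (map_ofNat C 13).symm
      have h4 : (13 : ZMod 13) = 0 := by decide
      rw [h3, h4, map_zero]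
    rw [this]; ring
  rw [Polynomial.map_add, h2]
  have h5 := dvd_add hQ (Dvd.intro (r.map (Int.castRingHom (ZMod 13))) rfl)
  refine h5.trans (dvd_of_eq (by ring))

theorem rep_sum (f : Fin 20 → ℤ) (t : T)
    (h : ∀ k : Fin 20, (13 : ℤ) ∣ f k - (t.l.getD (k : ℕ) 0 : ℕ)) :
    Rep (∑ i : Fin 20, C (f i) * X ^ (i : ℕ)) t := by
  apply rep_of_coeff
  intro k hk
  have h1 : (∑ i : Fin 20, C (f i) * X ^ (i : ℕ)).coeff k = f ⟨k, hk⟩ := by
    rw [finsetSum_coeff, Finset.sum_eq_single (⟨k, hk⟩ : Fin 20)]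
    · simp
    · intro b _ hb
      rw [coeff_C_mul_X_pow, if_neg]
      intro hk2
      exact hb (Fin.ext hk2.symm)
    · simp
  rw [h1]
  exact h ⟨k, hk⟩

end Pool.Agent.Helper4.RS
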