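import Mathlib
import Pool.Agent.Helper17.RS.Sheet
import Pool.Agent.Helper4.RS.Trunc

/-! # Row SER: the truncated solution of the two equations modulo `(13, X^20)` -/

set_option autoImplicit false

namespace Pool.Agent.Helper4.RS

open Polynomial Pool.Helper17.RS

def la : T := ⟨[4, 8, 1, 3, 10, 10, 3, 0, 8, 4, 9, 0, 3, 1, 9, 6, 6, 8, 3, 3]⟩
def lb : T := ⟨[7, 10, 9, 7, 12, 11, 10, 10, 11, 11, 2, 5, 2, 5, 5, 1, 8, 5, 11, 5]⟩
def lc : T := ⟨[11, 1]⟩
def ld : T := ⟨[5, 9, 2, 10, 6, 10, 5, 8, 2, 2, 12, 5, 2, 5, 4, 8, 6, 6, 4, 8]⟩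

theorem rep_pa : Rep pa la := by
  unfold pa
  apply rep_sum
  decide

theorem rep_pb : Rep pb lb := by
  unfold pb
  apply rep_sum
  decide

theorem rep_c : Rep (11 + X) lc := by
  have h := rep_add (rep_ofNat 11) rep_X
  have e : ((OfNat.ofNat 11 : T) + ⟨[0, 1]⟩) = lc := by decide
  rw [e] at h
  exact h

def FAT (a b c : T) : T :=
  541 * (a ^ 4 + b ^ 4 + c ^ 4) - 493 * (a ^ 2 * b ^ 2 + a ^ 2 * c ^ 2 + b ^ 2 * c ^ 2)

def FBT (a b c : T) : T :=
  22678 * (a ^ 6 + b ^ 6 + c ^ 6) - 12291 * (a ^ 4 * b ^ 2 + a ^ 4 * c ^ 2 + b ^ 4 * a ^ 2 +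
    b ^ 4 * c ^ 2 + c ^ 4 * a ^ 2 + c ^ 4 * b ^ 2) + 2256 * a ^ 2 * b ^ 2 * c ^ 2

def JJT (a b c : T) : T :=
  (2164 * a ^ 3 - 986 * a * (b ^ 2 + c ^ 2)) *
    (136068 * b ^ 5 - 49164 * b ^ 3 * (a ^ 2 + c ^ 2) - 24582 * b * (a ^ 4 + c ^ 4) +
      4512 * b * a ^ 2 * c ^ 2) -
  (2164 * b ^ 3 - 986 * b * (a ^ 2 + c ^ 2)) *
    (136068 * a ^ 5 - 49164 * a ^ 3 * (b ^ 2 + c ^ 2) - 24582 * a * (b ^ 4 + c ^ 4) +
      4512 * a * b ^ 2 * c ^ 2)

theorem rep_FA {P Q R : ℤ[X]} {s t u : T} (h1 : Rep P s) (h2 : Rep Q t) (h3 : Rep R u) :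
    Rep (FA P Q R) (FAT s t u) := by
  unfold FA FAT
  repeat' first
    | with_reducible exact h1 | with_reducible exact h2 | with_reducible exact h3
    | with_reducible apply rep_add | with_reducible apply rep_sub
    | with_reducible apply rep_mul | with_reducible apply rep_pow
    | with_reducible exact rep_ofNat _

theorem rep_FB {P Q R : ℤ[X]} {s t u : T} (h1 : Rep P s) (h2 : Rep Q t) (h3 : Rep R u) :
    Rep (FB P Q R) (FBT s t u) := by
  unfold FB FBT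
  repeat' first
    | with_reducible exact h1 | with_reducible exact h2 | with_reducible exact h3
    | with_reducible apply rep_add | with_reducible apply rep_sub
    | with_reducible apply rep_mul | with_reducible apply rep_pow
    | with_reducible exact rep_ofNat _

theorem rep_JJ {P Q R : ℤ[X]} {s t u : T} (h1 : Rep P s) (h2 : Rep Q t) (h3 : Rep R u) :
    Rep (JJ P Q R) (JJT s t u) := by
  unfold JJ JJT
  repeat' first
    | with_reducible exact h1 | with_reducible exact h2 | with_reducible exact h3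
    | with_reducible apply rep_add | with_reducible apply rep_sub
    | with_reducible apply rep_mul | with_reducible apply rep_pow
    | with_reducible exact rep_ofNat _

theorem ck1 : ∀ k < 20, (FAT la lb lc).l.getD k 0 % 13 = (⟨[3]⟩ : T).l.getD k 0 % 13 := by
  decide +kernel

theorem ck2 : ∀ k < 20, (FBT la lb lc).l.getD k 0 % 13 = (⟨[12]⟩ : T).l.getD k 0 % 13 := by
  decide +kernel

theorem ck3 : ∀ k < 20, (ld * JJT la lb lc).l.getD k 0 % 13 = (⟨[1]⟩ : T).l.getD k 0 % 13 := by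
  decide +kernel

/-- the inverse of the Jacobian series -/
def dd : Fin 20 → ℤ := ![5, 9, 2, 10, 6, 10, 5, 8, 2, 2, 12, 5, 2, 5, 4, 8, 6, 6, 4, 8]

theorem st_SER : ST_SER := by
  refine ⟨?_, ?_, ∑ i : Fin 20, C (dd i) * X ^ (i : ℕ), ?_⟩
  · refine eq20_of_rep (rep_FA rep_pa rep_pb rep_c) (rep_C _ 3 ?_) ck1
    norm_num [FA]
  · refine eq20_of_rep (rep_FB rep_pa rep_pb rep_c) (rep_C _ 12 ?_) ck2
    norm_num [FB]
  · refine eq20_of_rep (rep_mul (t := JJT la lb lc) (s := ld) ?_ (rep_JJ rep_pa rep_pb rep_c))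
      rep_one ck3
    apply rep_sum
    decide

end Pool.Agent.Helper4.RS
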