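import Mathlib
import Pool.Agent.Helper17.RS.Sheet
import Pool.Agent.Helper4.RS.SER

/-! # Row EXP: the echelon basis along the curve -/

set_option autoImplicit false

namespace Pool.Agent.Helper4.RS

open Polynomial Pool.Helper17.RS

def sumT (g : Fin 20 → T) : T :=
  ⟨(List.finRange 20).foldr (fun i acc => addL (g i).l acc) []⟩

theorem rep_zero : Rep 0 ⟨[]⟩ := by
  unfold Rep
  simp [tp]

theorem rep_list (f : Fin 20 → ℤ[X]) (g : Fin 20 → T) (h : ∀ i, Rep (f i) (g i)) :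
    ∀ l : List (Fin 20), Rep ((l.map f).sum) ⟨l.foldr (fun i acc => addL (g i).l acc) []⟩
  | [] => by simpa using rep_zero
  | i :: l => by
    have h1 := rep_add (h i) (rep_list f g h l)
    rw [List.map_cons, List.sum_cons]
    exact h1

theorem rep_sumT (f : Fin 20 → ℤ[X]) (g : Fin 20 → T) (h : ∀ i, Rep (f i) (g i)) :
    Rep (∑ i, f i) (sumT g) := by
  rw [Fin.sum_univ_def]
  exact rep_list f g h _

def mt (s t : T) (i : Fin 20) : T :=
  (s - 4) ^ (mo i).1 * (t - 7) ^ (mo i).2.1 * (lc - 11) ^ (mo i).2.2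

def cfn (j i : Fin 20) : ℕ := (cf j i).toNat

def ft (m : Fin 20 → T) (j : Fin 20) : T := sumT fun i => (⟨[cfn j i]⟩ : T) * m i

theorem cfn_ok : ∀ j i : Fin 20, (13 : ℤ) ∣ cf j i - (cfn j i : ℕ) := by
  decide +kernel

theorem rep_ff {U V : ℤ[X]} (m : Fin 20 → T)
    (hm : ∀ i, Rep ((U - 4) ^ (mo i).1 * (V - 7) ^ (mo i).2.1 * ((11 + X) - 11) ^ (mo i).2.2)
      (m i)) (j : Fin 20) : Rep (ff j U V (11 + X)) (ft m j) := by
  unfold ff ft
  apply rep_sumT
  intro i
  exact rep_mul (rep_int _ _ (cfn_ok j i)) (hm i)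

/-- first `j` entries are `0`, the next one is not -/
def chk : ℕ → List ℕ → Bool
  | _, [] => false
  | 0, x :: _ => decide (x % 13 ≠ 0)
  | n + 1, x :: xs => decide (x % 13 = 0) && chk n xs

theorem chk_ok : ∀ (n : ℕ) (l : List ℕ), chk n l = true →
    (∀ k < n, l.getD k 0 % 13 = 0) ∧ l.getD n 0 % 13 ≠ 0
  | n, [], h => by simp [chk] at h
  | 0, x :: xs, h => by
    refine ⟨fun k hk => absurd hk (Nat.not_lt_zero k), ?_⟩
    simpa [chk] using h
  | n + 1, x :: xs, h => by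
    simp only [chk, Bool.and_eq_true, decide_eq_true_eq] at h
    obtain ⟨h1, h2⟩ := chk_ok n xs h.2
    refine ⟨?_, ?_⟩
    · intro k hk
      cases k with
      | zero => simpa using h.1
      | succ k =>
        rw [List.getD_cons_succ]
        exact h1 k (by omega)
    · rw [List.getD_cons_succ]; exact h2

def ml : Fin 20 → T := fun i => mt la lb i

theorem ck4 : ∀ j : Fin 20, chk (j : ℕ) (ft ml j).l = true := by
  decide +kernel

theorem st_EXP : ST_EXP := by
  intro U V hU hV j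
  have h1 := rep_of_eq20 hU rep_pa
  have h2 := rep_of_eq20 hV rep_pb
  have hm : ∀ i, Rep ((U - 4) ^ (mo i).1 * (V - 7) ^ (mo i).2.1 *
      ((11 + X) - 11) ^ (mo i).2.2) (ml i) := by
    intro i
    exact rep_mul (rep_mul (rep_pow (rep_sub h1 (rep_ofNat 4)) _)
      (rep_pow (rep_sub h2 (rep_ofNat 7)) _)) (rep_pow (rep_sub rep_c (rep_ofNat 11)) _)
  have h3 := rep_ff ml hm j
  obtain ⟨h4, h5⟩ := chk_ok _ _ (ck4 j)
  have hz : ∀ n : ℕ, ((n : ℕ) : ZMod 13) = 0 ↔ n % 13 = 0 := fun n => by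
    rw [ZMod.natCast_eq_zero_iff]; exact Nat.dvd_iff_mod_eq_zero
  refine ⟨?_, ?_⟩
  · intro k hk
    have h6 := rep_coeff h3 k (lt_trans hk j.2)
    rw [(hz _).2 (h4 k hk)] at h6
    have h7 := (ZMod.intCast_zmod_eq_zero_iff_dvd _ 13).1 h6
    exact_mod_cast h7
  · intro h7
    have h6 := rep_coeff h3 j j.2
    have h8 : ((((ff j U V (11 + X)).coeff (j : ℕ) : ℤ)) : ZMod 13) = 0 :=
      (ZMod.intCast_zmod_eq_zero_iff_dvd _ 13).2 (by exact_mod_cast h7)
    rw [h8] at h6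
    exact h5 ((hz _).1 h6.symm)

end Pool.Agent.Helper4.RS
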